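import Pool.Agent.TH982.KRW.Main

set_option autoImplicit false

/-!
# The inverse correlation length of a killed random walk can fail to be analytic beyond saturation

Model KRW, `d = 2`, norm `|x| = |x₁| + |x₂|`, `ψ(x) = c (1+x₁²)^{-2} (1+x₂²)^{-2}`, direction
`s = (2,1)/√5`. Here `ν_s(λ)` is the maximum of `t·s` over the convex set
`{t ∈ [-1,1]² : ∑_x J_{0x} e^{t·x} ≤ 1/λ}`. When `λ` decreases the maximiser reaches the facet
`t₁ = 1` of the Wulff shape `[-1,1]²` of the norm before it reaches the corner `(1,1)`, which is the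
only vector dual to `s`; at this point, which lies strictly between `λ_sat(s)` and `λ_exp = 1`, the
function `ν_s` is not analytic.

The definitions (`Sx`, `l1`, `J`, `walks`, `G`, `pt`, `nu`, `lamC`, `Unit2`, `lamExp`, `lamSat`) are
in `Pool/Agent/TH982/KRW/Defs.lean`.
-/

namespace Pool.Agent.Results.MP_07406a_pr.FacetSingularity

open Filter Topology Pool.Agent.TH982.KRW
open scoped ENNReal

theorem result :
    ∃ ψ : Sx → ℝ,
      -- the standing assumptions of the problem on `ψ`, for the norm `l1`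
      (∀ y, y ≠ 0 → 0 < ψ y) ∧
      Tendsto (fun y : Sx => Real.log (ψ y) / l1 y) cofinite (𝓝 0) ∧
      (∀ y : Sx, ψ (-y.1, y.2) = ψ y ∧ ψ (y.1, -y.2) = ψ y ∧ ψ (y.2, y.1) = ψ y) ∧
      HasSum (J ψ) 1 ∧
      -- the quantities involved are well defined
      lamC ψ = 1 ∧
      (∀ lam : ℝ, 0 < lam → lam < lamC ψ → ∀ x, 0 < G ψ lam x ∧ G ψ lam x < ∞) ∧
      (∀ lam : ℝ, 0 < lam → lam < lamC ψ → ∀ s : ℝ × ℝ,
        Tendsto (fun n : ℕ => -Real.log (G ψ lam (pt s n)).toReal / n) atTop (𝓝 (nu ψ s lam))) ∧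
      -- non-analyticity strictly between `λ_sat(s)` and `λ_exp`
      ∃ s : ℝ × ℝ, s.1 ^ 2 + s.2 ^ 2 = 1 ∧ ∃ lam : ℝ, lamSat ψ s < lam ∧
        (lam : EReal) < lamExp ψ ∧ ¬ AnalyticAt ℝ (nu ψ s) lam := by
  refine ⟨psi, fun y _ => psi_pos y, psi_subexp, psi_symm, J_hasSum_one, lamC_eq good_psi, ?_, ?_,
    s0, s0_unit, main⟩
  · intro lam h0 h1 x
    rw [lamC_eq good_psi] at h1
    exact ⟨G_pos good_psi h0 x, lt_top_iff_ne_top.2 (G_ne_top good_psi h0.le h1 x)⟩
  · intro lam h0 h1 s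
    rw [lamC_eq good_psi] at h1
    exact nu_tendsto good_psi h0 h1 s

end Pool.Agent.Results.MP_07406a_pr.FacetSingularity
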